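import Pool.Agent.W93.CU2

/-!
# The median inequality for the sum-of-digits measures `P_t`

`P_t(ℕ) ≥ 1/2` and `P_t(-ℕ) ≥ 1/2` for every `t ≥ 1`. The proof uses the count of distinct
subsequences of a binary word and the deletion inequality of `W93.CU1`.
-/

set_option autoImplicit false

namespace Pool.Agent.Results.MP_23af5d_nt.MedianInequality

open W93.CU

/-- The measures `P_t` on `ℤ`, `t ≥ 1`, given by their point masses: `P_1` is the point mass at `0`
and, for `n ≥ 1`, `P_{2n} = P_n` and `P_{2n+1}(d) = P_n(d-1)/2 + P_{n+1}(d+1)/2`.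
(The value for `t = 0` is a junk value.) -/
noncomputable def P : ℕ → ℤ → ℝ
  | 0 => fun _ => 0
  | 1 => fun d => if d = 0 then 1 else 0
  | n + 2 =>
    if n % 2 = 0 then P (n / 2 + 1)
    else fun d => P (n / 2 + 1) (d - 1) / 2 + P (n / 2 + 2) (d + 1) / 2
  termination_by t => t
  decreasing_by all_goals omega

/-- the initial value -/
theorem P_one (d : ℤ) : P 1 d = if d = 0 then 1 else 0 := by
  rw [P]

/-- the recursion for even indices -/
theorem P_even (n : ℕ) (hn : 1 ≤ n) : P (2 * n) = P n := by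
  obtain ⟨m, rfl⟩ : ∃ m, n = m + 1 := ⟨n - 1, by omega⟩
  rw [show 2 * (m + 1) = 2 * m + 2 by ring, P, if_pos (by omega), show 2 * m / 2 = m by omega]

/-- the recursion for odd indices -/
theorem P_odd (n : ℕ) (hn : 1 ≤ n) (d : ℤ) :
    P (2 * n + 1) d = P n (d - 1) / 2 + P (n + 1) (d + 1) / 2 := by
  obtain ⟨m, rfl⟩ : ∃ m, n = m + 1 := ⟨n - 1, by omega⟩
  rw [show 2 * (m + 1) + 1 = (2 * m + 1) + 2 by ring, P, if_neg (by omega),
    show (2 * m + 1) / 2 = m by omega]

/-- `f` is the tail function of `P_n` -/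
def IsTail (n : ℕ) (f : ℤ → ℝ) : Prop := ∀ k : ℤ, HasSum (fun j : ℕ => P n (k + j)) (f k)

lemma isTail_one : IsTail 1 one0 := by
  intro k
  simp only [P_one]
  by_cases h : k ≤ 0
  · have e : one0 k = 1 := by unfold one0; rw [if_pos h]
    rw [e]
    have h0 : k + ((-k).toNat : ℤ) = 0 := by omega
    have h2 := hasSum_single (f := fun j : ℕ => if k + (j : ℤ) = 0 then (1 : ℝ) else 0) (-k).toNat
      (fun j hj => if_neg (by omega))
    rw [if_pos h0] at h2
    exact h2
  · have e : one0 k = 0 := by unfold one0; rw [if_neg h]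
    rw [e]
    have : (fun j : ℕ => if k + (j : ℤ) = 0 then (1 : ℝ) else 0) = fun _ => 0 := by
      funext j
      have : k + (j : ℤ) ≠ 0 := by omega
      simp [this]
    rw [this]
    exact hasSum_zero

lemma isTail_even {n : ℕ} (hn : 1 ≤ n) {f : ℤ → ℝ} (h : IsTail n f) : IsTail (2 * n) f := by
  intro k
  rw [P_even n hn]
  exact h k

lemma isTail_odd {n : ℕ} (hn : 1 ≤ n) {f g : ℤ → ℝ} (hf : IsTail n f) (hg : IsTail (n + 1) g) :
    IsTail (2 * n + 1) (fun k => f (k - 1) / 2 + g (k + 1) / 2) := by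
  intro k
  have e : (fun j : ℕ => P (2 * n + 1) (k + j)) =
      fun j : ℕ => P n (k - 1 + j) / 2 + P (n + 1) (k + 1 + j) / 2 := by
    funext j
    rw [P_odd n hn, show k + (j : ℤ) - 1 = k - 1 + j by ring, show k + (j : ℤ) + 1 = k + 1 + j by ring]
  rw [e]
  exact ((hf (k - 1)).div_const 2).add ((hg (k + 1)).div_const 2)

/-- the tails of `P_n` and `P_{n+1}` are given by a word -/
lemma exists_word (n : ℕ) (hn : 1 ≤ n) :
    ∃ w : List Bool, IsTail n (tl one0 one0 w).1 ∧ IsTail (n + 1) (tl one0 one0 w).2 := by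
  induction n using Nat.strong_induction_on with
  | _ n ih =>
    rcases Nat.eq_or_lt_of_le hn with h1 | h1
    · subst h1
      refine ⟨[], isTail_one, ?_⟩
      exact isTail_even le_rfl isTail_one
    · obtain ⟨m, hm | hm⟩ : ∃ m, n = 2 * m ∨ n = 2 * m + 1 := ⟨n / 2, by omega⟩
      · obtain ⟨w, h2, h3⟩ := ih m (by omega) (by omega)
        subst hm
        exact ⟨false :: w, isTail_even (by omega) h2, isTail_odd (by omega) h2 h3⟩
      · obtain ⟨w, h2, h3⟩ := ih m (by omega) (by omega)
        subst hm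
        refine ⟨true :: w, isTail_odd (by omega) h2 h3, ?_⟩
        have : 2 * m + 1 + 1 = 2 * (m + 1) := by ring
        rw [this]
        exact isTail_even (by omega) h3

/-- the value of the tail at `0` is at least `1/2`, the value at `1` is at most `1/2` -/
lemma median (t : ℕ) (ht : 1 ≤ t) : ∃ f : ℤ → ℝ, IsTail t f ∧ 1 / 2 ≤ f 0 ∧ f 1 ≤ 1 / 2 := by
  induction t using Nat.strong_induction_on with
  | _ t ih =>
    rcases Nat.eq_or_lt_of_le ht with h1 | h1
    · subst h1
      exact ⟨one0, isTail_one, by norm_num [one0], by norm_num [one0]⟩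
    · obtain ⟨m, hm | hm⟩ : ∃ m, t = 2 * m ∨ t = 2 * m + 1 := ⟨t / 2, by omega⟩
      · obtain ⟨f, h2, h3⟩ := ih m (by omega) (by omega)
        subst hm
        exact ⟨f, isTail_even (by omega) h2, h3⟩
      · obtain ⟨w, h2, h3⟩ := exists_word m (by omega)
        subst hm
        exact ⟨_, isTail_odd (by omega) h2 h3, median_odd w, median_odd_le w⟩

/-- the total mass is one -/
lemma total (t : ℕ) (ht : 1 ≤ t) : HasSum (P t) 1 := by
  induction t using Nat.strong_induction_on with
  | _ t ih =>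
    rcases Nat.eq_or_lt_of_le ht with h1 | h1
    · subst h1
      have e : P 1 = fun d : ℤ => if d = 0 then (1 : ℝ) else 0 := by
        funext d; exact P_one d
      rw [e]
      exact hasSum_ite_eq 0 1
    · obtain ⟨m, hm | hm⟩ : ∃ m, t = 2 * m ∨ t = 2 * m + 1 := ⟨t / 2, by omega⟩
      · subst hm
        rw [P_even m (by omega)]
        exact ih m (by omega) (by omega)
      · subst hm
        have e : P (2 * m + 1) = fun d : ℤ => P m (d - 1) / 2 + P (m + 1) (d + 1) / 2 := by
          funext d; exact P_odd m (by omega) d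
        rw [e]
        have a : HasSum (fun d : ℤ => P m (d - 1)) 1 :=
          (Equiv.hasSum_iff (Equiv.subRight (1 : ℤ))).2 (ih m (by omega) (by omega))
        have b : HasSum (fun d : ℤ => P (m + 1) (d + 1)) 1 :=
          (Equiv.hasSum_iff (Equiv.addRight (1 : ℤ))).2 (ih (m + 1) (by omega) (by omega))
        have c := (a.div_const 2).add (b.div_const 2)
        norm_num at c
        exact c

/-- the masses are nonnegative -/
lemma nonneg (t : ℕ) (ht : 1 ≤ t) (d : ℤ) : 0 ≤ P t d := by
  induction t using Nat.strong_induction_on generalizing d with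
  | _ t ih =>
    rcases Nat.eq_or_lt_of_le ht with h1 | h1
    · subst h1
      rw [P_one]
      split_ifs <;> norm_num
    · obtain ⟨m, hm | hm⟩ : ∃ m, t = 2 * m ∨ t = 2 * m + 1 := ⟨t / 2, by omega⟩
      · subst hm
        rw [P_even m (by omega)]
        exact ih m (by omega) (by omega) d
      · subst hm
        rw [P_odd m (by omega)]
        have a := ih m (by omega) (by omega) (d - 1)
        have b := ih (m + 1) (by omega) (by omega) (d + 1)
        linarith

/-- **Median inequality.** For every `t ≥ 1` the numbers `P_t(d)` are the point masses of a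
probability measure on `ℤ` with `P_t({0, 1, 2, …}) ≥ 1/2` (and `P_t({0, -1, -2, …}) ≥ 1/2`). -/
theorem result : ∀ t : ℕ, 1 ≤ t →
    (∀ d : ℤ, 0 ≤ P t d) ∧ HasSum (P t) 1 ∧
    (1 / 2 : ℝ) ≤ ∑' d : ℕ, P t (d : ℤ) ∧ (1 / 2 : ℝ) ≤ ∑' d : ℕ, P t (-(d : ℤ)) := by
  intro t ht
  obtain ⟨f, hf, h0, h1⟩ := median t ht
  refine ⟨nonneg t ht, total t ht, ?_, ?_⟩
  · have h := hf 0
    simp only [zero_add] at h
    rw [h.tsum_eq]
    exact h0
  · have hT := total t ht
    have hneg : Summable (fun d : ℕ => P t (-(d : ℤ))) :=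
      hT.summable.comp_injective (i := fun d : ℕ => (-(d : ℤ))) (fun a b h => by
        simpa using h)
    have hsum : HasSum (fun d : ℕ => P t (-(d : ℤ))) (∑' d : ℕ, P t (-(d : ℤ))) := hneg.hasSum
    have hg : HasSum (fun d : ℤ => P t (1 + d)) (f 1 + ∑' d : ℕ, P t (-(d : ℤ))) := by
      refine HasSum.of_nat_of_neg_add_one (hf 1) ?_
      have e : (fun n : ℕ => P t (1 + -((n : ℤ) + 1))) = fun n : ℕ => P t (-(n : ℤ)) := by
        funext n
        congr 1
        ring
      rw [e]
      exact hsum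
    have hg1 : HasSum (fun d : ℤ => P t (1 + d)) 1 :=
      (Equiv.hasSum_iff (Equiv.addLeft (1 : ℤ))).2 hT
    have := hg.unique hg1
    linarith

end Pool.Agent.Results.MP_23af5d_nt.MedianInequality
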